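import Pool.Agent.Helper63.Sey4.Goals

set_option autoImplicit false

namespace Pool.Agent.Helper59.Sey4

open Pool.Agent.Helper63.Sey4
open Finset

open Classical in
theorem card_nb {V : Type} [Fintype V] (Q : V → V → Prop) (S : Finset V) (v : V) :
    Nat.card {u // u ∈ S ∧ Q v u} = (S.filter (fun u => Q v u)).card := by
  rw [Nat.card_eq_fintype_card]
  exact Fintype.card_of_subtype _ (fun x => by simp)

open Classical in
theorem free_pair {V : Type} [Fintype V] (Q : V → V → Prop) (S : Finset V) (k D p : ℕ)
    (hsym : ∀ u v, Q u v → Q v u) (hne : S.Nonempty)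
    (hk : ∀ v ∈ S, k ≤ (S.filter (fun u => Q v u)).card)
    (hD : ∀ v ∈ S, (S.filter (fun u => Q v u)).card ≤ D)
    (h8 : 8 * D ≤ S.card) (hp : p < 2 * k) (U : Finset V) (hUS : U ⊆ S) (hU : U.card ≤ 2 * p) :
    ∃ a b, a ∈ S ∧ b ∈ S ∧ Q a b ∧ a ∉ U ∧ b ∉ U := by
  by_contra hcon
  push Not at hcon
  have h1 : k * S.card ≤ ∑ v ∈ S, (S.filter (fun u => Q v u)).card := by
    calc k * S.card = ∑ _v ∈ S, k := by simp [mul_comm]
      _ ≤ _ := Finset.sum_le_sum hk
  have hsplit : ∑ v ∈ S, (S.filter (fun u => Q v u)).card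
      = ∑ v ∈ S \ U, (S.filter (fun u => Q v u)).card + ∑ v ∈ U, (S.filter (fun u => Q v u)).card :=
    (Finset.sum_sdiff hUS).symm
  have hUD : ∑ v ∈ U, (S.filter (fun u => Q v u)).card ≤ U.card * D := by
    calc ∑ v ∈ U, (S.filter (fun u => Q v u)).card ≤ ∑ _v ∈ U, D :=
          Finset.sum_le_sum (fun v hv => hD v (hUS hv))
      _ = U.card * D := by simp
  have h2 : ∑ v ∈ S \ U, (S.filter (fun u => Q v u)).card
      ≤ ∑ v ∈ S, (U.filter (fun u => Q v u)).card := by
    calc ∑ v ∈ S \ U, (S.filter (fun u => Q v u)).card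
        ≤ ∑ v ∈ S \ U, (U.filter (fun u => Q v u)).card := by
          refine Finset.sum_le_sum (fun v hv => Finset.card_le_card ?_)
          intro u hu
          rw [Finset.mem_filter] at hu ⊢
          rw [Finset.mem_sdiff] at hv
          refine ⟨?_, hu.2⟩
          exact hcon v u hv.1 hu.1 hu.2 hv.2
      _ ≤ _ := Finset.sum_le_sum_of_subset Finset.sdiff_subset
  have h3 : ∑ v ∈ S, (U.filter (fun u => Q v u)).card = ∑ u ∈ U, (S.filter (fun v => Q v u)).card := by
    simp only [Finset.card_filter]
    exact Finset.sum_comm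
  have h4 : ∑ u ∈ U, (S.filter (fun v => Q v u)).card ≤ U.card * D := by
    calc ∑ u ∈ U, (S.filter (fun v => Q v u)).card ≤ ∑ _u ∈ U, D := by
          refine Finset.sum_le_sum (fun u hu => ?_)
          refine le_trans (Finset.card_le_card ?_) (hD u (hUS hu))
          intro v hv
          rw [Finset.mem_filter] at hv ⊢
          exact ⟨hv.1, hsym _ _ hv.2⟩
      _ = U.card * D := by simp
  have h5 : k * S.card ≤ 2 * (U.card * D) := by omega
  have hS1 : 1 ≤ S.card := hne.card_pos
  have hk1 : 1 ≤ k := by omega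
  have h6 : U.card * D ≤ (2 * p) * D := Nat.mul_le_mul_right _ hU
  rcases Nat.eq_zero_or_pos D with h0 | h0
  · subst h0
    have h7 : 1 ≤ k * S.card := Nat.mul_pos hk1 hS1
    simp at h5
    omega
  · have h7 : k * (8 * D) ≤ k * S.card := Nat.mul_le_mul_left _ h8
    have h8' : p * D < (2 * k) * D := Nat.mul_lt_mul_of_pos_right hp h0
    nlinarith

open Classical in
theorem build {V : Type} [Fintype V] (Q : V → V → Prop) (S : Finset V) (k D : ℕ)
    (hsym : ∀ u v, Q u v → Q v u) (hirr : ∀ v, ¬ Q v v) (hne : S.Nonempty)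
    (hk : ∀ v ∈ S, k ≤ (S.filter (fun u => Q v u)).card)
    (hD : ∀ v ∈ S, (S.filter (fun u => Q v u)).card ≤ D)
    (h8 : 8 * D ≤ S.card) (p : ℕ) (hp : p ≤ 2 * k) :
    ∃ m : Fin p × Bool → V, Function.Injective m ∧ (∀ x, m x ∈ S) ∧
      ∀ i, Q (m (i, false)) (m (i, true)) := by
  induction p with
  | zero =>
    refine ⟨fun x => x.1.elim0, fun x => x.1.elim0, fun x => x.1.elim0, fun i => i.elim0⟩
  | succ p ih =>
    obtain ⟨m, hinj, hmS, hmQ⟩ := ih (by omega)
    obtain ⟨a, b, ha, hb, hab, haU, hbU⟩ := free_pair Q S k D p hsym hne hk hD h8 (by omega)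
      (Finset.univ.image m) (by
        intro x hx
        rw [Finset.mem_image] at hx
        obtain ⟨y, _, rfl⟩ := hx
        exact hmS y)
      (by
        refine le_trans Finset.card_image_le ?_
        simp [mul_comm])
    have haU' : ∀ y, m y ≠ a := fun y hy => haU (Finset.mem_image.2 ⟨y, Finset.mem_univ _, hy⟩)
    have hbU' : ∀ y, m y ≠ b := fun y hy => hbU (Finset.mem_image.2 ⟨y, Finset.mem_univ _, hy⟩)
    have hne' : a ≠ b := fun h => hirr b (h ▸ hab)
    refine ⟨fun x => if h : x.1.val < p then m (⟨x.1.val, h⟩, x.2) else (if x.2 then b else a), ?_, ?_, ?_⟩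
    · rintro ⟨i, c⟩ ⟨j, d⟩ h
      by_cases hi : i.val < p <;> by_cases hj : j.val < p
      · simp only [hi, hj, dite_true] at h
        have := hinj h
        rw [Prod.mk.injEq, Fin.mk.injEq] at this
        rw [Prod.mk.injEq]
        exact ⟨Fin.ext this.1, this.2⟩
      · simp only [hi, hj, dite_true, dite_false] at h
        exfalso
        cases d
        · exact haU' _ h
        · exact hbU' _ h
      · simp only [hi, hj, dite_true, dite_false] at h
        exfalso
        cases c
        · exact haU' _ h.symm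
        · exact hbU' _ h.symm
      · simp only [hi, hj, dite_false] at h
        have hij : i = j := by
          apply Fin.ext
          have := i.isLt
          have := j.isLt
          omega
        subst hij
        cases c <;> cases d
        · rfl
        · exact absurd h hne'
        · exact absurd h.symm hne'
        · rfl
    · rintro ⟨i, c⟩
      by_cases hi : i.val < p
      · simp only [hi, dite_true]
        exact hmS _
      · simp only [hi, dite_false]
        cases c
        · exact ha
        · exact hb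
    · intro i
      by_cases hi : i.val < p
      · simp only [hi, dite_true]
        exact hmQ _
      · simp only [hi, dite_false]
        exact hab

theorem goalMATCH : GoalMATCH := by
  classical
  intro V _ Q S k D hsym hirr hne hk hD h8
  have hk' : ∀ v ∈ S, k ≤ (S.filter (fun u => Q v u)).card := by
    intro v hv
    have := hk v hv
    rwa [card_nb] at this
  have hD' : ∀ v ∈ S, (S.filter (fun u => Q v u)).card ≤ D := by
    intro v hv
    have := hD v hv
    rwa [card_nb] at this
  exact build Q S k D hsym hirr hne hk' hD' h8 (2 * k) le_rfl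

end Pool.Agent.Helper59.Sey4
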